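import Mathlib
import Pool.Agent.H87.Cookie.Defs
import Pool.Agent.H87.Cookie.Hit

/-!
# A critical excited random walk in an ergodic environment can be transient

There is a law `P` on cookie environments that satisfies (SE), (WEL) and (BD), has expected drift
per site `δ = 1`, and for which the excited random walk `X^{(1)}` is transient to the right. So
`X^{(1)}` is transient although `k = 1 ≥ δ`.

The environment is driven by the 2-adic odometer `z ↦ z + 1` with Haar measure. At the sites `x`
with `z + x` in a set `good` of positive measure the stack is `(37/48, 37/48, 1/2, 1/2, ...)`; at
all other sites it is `(1, (1 - b)/2, 1/2, 1/2, ...)` with `b = b(z + x)` in `[-1/12, 11/12]`. The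
mean of `b` is `0`, but `b` takes its positive values on blocks that are rare and very long, so
that from a good site the backward chain of left crossings sees the drift `-1/12`, slightly
corrected at each scale, up to the next large scale. This makes the expected life time of the
excursions of the backward chain finite although the overall drift vanishes.
-/

open MeasureTheory Filter Topology Set

namespace Pool.Agent.Results.MP_54d550_pr.CriticalTransient

open Pool.Agent.H87.Cookie

universe u

/-- There is a probability measure `P` on environments satisfying (SE), (WEL), (BD) with `δ = 1`
such that excited random walks in an environment with law `P` exist and every one of them tends to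
`+∞` almost surely. -/
theorem result :
    ∃ P : Measure Env, IsProbabilityMeasure P ∧ SE P ∧ WEL P ∧ BD P ∧ delta P = 1 ∧
      (∃ (Ω : Type) (_ : MeasurableSpace Ω) (Q : Measure Ω) (W : Ω → Env) (X : ℕ → Ω → ℤ),
        IsERW P Q W X) ∧
      ∀ (Ω : Type u) [MeasurableSpace Ω] (Q : Measure Ω) (W : Ω → Env) (X : ℕ → Ω → ℤ),
        IsERW P Q W X → ∀ᵐ o ∂Q, Tendsto (fun n => X n o) atTop atTop := by
  refine ⟨PE, ?_, se_PE, wel_PE, bd_PE, delta_PE, ?_, ?_⟩
  · exact Measure.isProbabilityMeasure_map measurable_envm.aemeasurable
  · exact ⟨Sp, inferInstance, PP, WW, XX, isERW_arrow⟩
  · intro Ω _ Q W X h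
    exact erw_transient h

end Pool.Agent.Results.MP_54d550_pr.CriticalTransient
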